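import Pool.Agent.TTC.StmtsB

set_option autoImplicit false

/-!
# Squad TTC, row FIB (one pencil)
-/

namespace Pool.Agent.TTC.H23

open Polynomial NumberField Pool.Agent.SZT Pool.Agent.KDD

theorem fin_set (N : ℤ) (p : ℤ → Prop) : {c : ℤ | |c| ≤ N ∧ p c}.Finite := by
  apply (Set.finite_Icc (-N) N).subset
  rintro c ⟨hc, -⟩
  exact ⟨(abs_le.1 hc).1, (abs_le.1 hc).2⟩

theorem qp_monic (a : Fin 4 → ℤ) (c : ℤ) : (qp a c).Monic := by
  unfold qp
  monicity!

theorem qp_natDegree (a : Fin 4 → ℤ) (c : ℤ) : (qp a c).natDegree = 5 := by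
  unfold qp
  compute_degree!

/-- The numerical inequality. -/
theorem num_ineq (d n H : ℕ) (ε l r s : ℝ) (hε : 0 < ε) (h4 : 4 ≤ H) (hn : n ≤ d)
    (hl : l ≤ (n : ℝ) * Real.log (4 * H)) (hr : (H : ℝ) ^ ε ≤ r) (hs : Real.log r ≤ s) :
    ε / (2 * (d + 1)) * l ≤ s := by
  have hH0 : (0 : ℝ) < (H : ℝ) := by
    have : 0 < H := by omega
    exact_mod_cast this
  have hH4 : (4 : ℝ) ≤ (H : ℝ) := by exact_mod_cast h4
  have e1 : Real.log (4 * H) = Real.log 4 + Real.log H :=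
    Real.log_mul (by norm_num) hH0.ne'
  have e2 : Real.log 4 ≤ Real.log H := Real.log_le_log (by norm_num) hH4
  have e3 : 0 ≤ Real.log H := Real.log_nonneg (by linarith)
  have e4 : ε * Real.log H ≤ Real.log r := by
    rw [← Real.log_rpow hH0]
    exact Real.log_le_log (Real.rpow_pos_of_pos hH0 ε) hr
  have hnd : (n : ℝ) ≤ (d : ℝ) := by exact_mod_cast hn
  have hd0 : (0 : ℝ) ≤ (d : ℝ) := Nat.cast_nonneg d
  have e5 : l ≤ (d : ℝ) * (2 * Real.log H) := by
    refine hl.trans ?_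
    rw [e1]
    apply mul_le_mul hnd (by linarith) _ hd0
    have : 0 ≤ Real.log 4 := Real.log_nonneg (by norm_num)
    linarith
  have e6 : ε / (2 * (d + 1)) * l ≤ ε / (2 * (d + 1)) * ((d : ℝ) * (2 * Real.log H)) :=
    mul_le_mul_of_nonneg_left e5 (by positivity)
  have e7 : ε / (2 * (d + 1)) * ((d : ℝ) * (2 * Real.log H)) ≤ ε * Real.log H := by
    have h1 : ε / (2 * ((d : ℝ) + 1)) * ((d : ℝ) * (2 * Real.log H)) =
        (ε * Real.log H) * ((d : ℝ) / (d + 1)) := by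
      field_simp
    rw [h1]
    have h2 : (d : ℝ) / (d + 1) ≤ 1 := by
      rw [div_le_one (by positivity)]
      linarith
    have h3 : 0 ≤ ε * Real.log H := by positivity
    exact mul_le_of_le_one_right h3 h2
  linarith

theorem fib (hCNT : CntStmt) (hSQF : SqfStmt) (hCUB : CubStmt) (hPLC : PlcStmt) (hSPR : SprStmt)
    (hK : KDD.H18.KddPStatement) : FibStmt := by
  intro d δ hδ
  obtain ⟨ε, C0, hε, hC0, hcnt⟩ := hCNT δ hδ
  obtain ⟨B, hB⟩ := hK d (ε / (2 * (d + 1))) (by positivity)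
  refine ⟨B, C0 + 487, by positivity, ?_⟩
  intro H a hH hbox hwr
  have hH1 : (1 : ℝ) ≤ (H : ℝ) := by exact_mod_cast hH
  have hHδ : (1 : ℝ) ≤ (H : ℝ) ^ δ := Real.one_le_rpow hH1 hδ.le
  rcases lt_or_ge H 4 with h4 | h4
  · have h1 : {c : ℤ | |c| ≤ (H : ℤ) ^ 5 ∧ ¬ Good d B (qp a c)} ⊆
        ((Finset.Icc (-243 : ℤ) 243 : Finset ℤ) : Set ℤ) := by
      rintro c ⟨hc, -⟩
      have h3 : (H : ℤ) ≤ 3 := by omega
      have h5 : (H : ℤ) ^ 5 ≤ 243 := by
        calc (H : ℤ) ^ 5 ≤ 3 ^ 5 := pow_le_pow_left₀ (by positivity) h3 5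
          _ = 243 := by norm_num
      rw [Finset.coe_Icc]
      exact ⟨by linarith [(abs_le.1 hc).1], by linarith [(abs_le.1 hc).2]⟩
    have h2 := Set.ncard_le_ncard h1 (Finset.finite_toSet _)
    rw [Set.ncard_coe_finset] at h2
    have h6 : (Finset.Icc (-243 : ℤ) 243).card = 487 := by
      rw [Int.card_Icc]
      rfl
    rw [h6] at h2
    have h7 : ({c : ℤ | |c| ≤ (H : ℤ) ^ 5 ∧ ¬ Good d B (qp a c)}.ncard : ℝ) ≤ (487 : ℝ) := by
      have := (Nat.cast_le (α := ℝ)).2 h2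
      refine this.trans (le_of_eq ?_)
      norm_num
    have h8 : 0 ≤ C0 * (H : ℝ) ^ δ := by positivity
    have h9 : (487 : ℝ) ≤ 487 * (H : ℝ) ^ δ := by linarith
    rw [add_mul]
    linarith
  · have hsub : {c : ℤ | |c| ≤ (H : ℤ) ^ 5 ∧ ¬ Good d B (qp a c)} ⊆
        {c : ℤ | |c| ≤ (H : ℤ) ^ 5 ∧ (discr (qp a c) = 0 ∨
          ((∏ p ∈ gp a c, p : ℕ) : ℝ) < (H : ℝ) ^ ε)} := by
      rintro c ⟨hc, hbad⟩
      refine ⟨hc, ?_⟩
      by_contra hcon
      rw [not_or, not_lt] at hcon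
      obtain ⟨hd0, hprod⟩ := hcon
      apply hbad
      refine ⟨hSQF a c hd0, ?_⟩
      intro K _ _ hfr Y hY x hx
      have hpr : ∀ p ∈ gp a c, p.Prime ∧ (p : ℤ) ∣ discr (qp a c) ∧ ¬ (p : ℤ) ∣ wr a := by
        intro p hp
        unfold gp at hp
        rw [Finset.mem_filter] at hp
        have h1 := Nat.prime_of_mem_primeFactors hp.1
        have h2 := Nat.dvd_of_mem_primeFactors hp.1
        exact ⟨h1, Int.natCast_dvd.2 h2, hp.2⟩
      obtain ⟨S, hS1, hS2⟩ := hPLC K (gp a c) (fun p hp => (hpr p hp).1)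
      have hmon : Y.f.Monic := by
        rw [hY]
        exact (qp_monic a c).map _
      have hdeg : Y.f.natDegree = 5 := by
        rw [hY, (qp_monic a c).natDegree_map, qp_natDegree]
      have hint : ∀ n, IsIntegral ℤ (Y.f.coeff n) := by
        intro n
        rw [hY, coeff_map]
        exact isIntegral_algebraMap
      have hSc : ∀ v ∈ S, CubeFree v.val Y.f ∧ v (discr Y.f) < 1 := by
        intro v hv
        obtain ⟨p, hp, hvp⟩ := hS1 v hv
        obtain ⟨h1, h2, h3⟩ := hpr p hp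
        obtain ⟨h4, h5⟩ := hCUB K v a c p h1 hvp h3
        rw [hY]
        exact ⟨h4, h5 h2⟩
      have hlog : Real.log ((∏ p ∈ gp a c, p : ℕ) : ℝ) = ∑ p ∈ gp a c, Real.log p := by
        rw [Nat.cast_prod, Real.log_prod]
        intro p hp
        have := (hpr p hp).1.ne_zero
        exact_mod_cast this
      have hineq : ε / (2 * (d + 1)) * lH Y.f ≤
          ∑ v ∈ S, Real.log (Ideal.absNorm v.maximalIdeal.asIdeal) := by
        refine num_ineq d (Module.finrank ℚ K) H ε _ _ _ hε h4 hfr ?_ hprod ?_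
        · rw [hY]
          exact hSPR K H a c hH hbox hc
        · rw [hlog]
          exact hS2
      exact hB K hfr Y hmon hdeg hint S hSc hineq x hx
    have h2 := Set.ncard_le_ncard hsub (fin_set _ _)
    have h3 : ({c : ℤ | |c| ≤ (H : ℤ) ^ 5 ∧ ¬ Good d B (qp a c)}.ncard : ℝ) ≤
        ({c : ℤ | |c| ≤ (H : ℤ) ^ 5 ∧ (discr (qp a c) = 0 ∨
          ((∏ p ∈ gp a c, p : ℕ) : ℝ) < (H : ℝ) ^ ε)}.ncard : ℝ) := by
      exact_mod_cast h2
    have h5 := hcnt H a hH hbox hwr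
    nlinarith

end Pool.Agent.TTC.H23
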